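import Pool.Agent.TH993.KA.Mid

/-!
All sizes for odd order.
-/

set_option autoImplicit false
set_option linter.unusedSectionVars false

namespace Pool.Agent.TH993.KA

open Finset Pool.Agent.H598R3

lemma small_aux {F : Type} [Field F] [Fintype F] [DecidableEq F] (k b : ℕ) (hk3 : 3 ≤ k)
    (hkq : k + 1 < Fintype.card F) (hb1 : Fintype.card F ≤ b) (hb2 : b ≤ 2 * Fintype.card F) :
    Sz F k ((k - 3) * Fintype.card F + b) := by
  classical
  have hopt : (univ : Finset (Option F)).card = Fintype.card F + 1 := by simp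
  obtain ⟨Y, hY⟩ := Finset.exists_subset_card_eq (s := (univ : Finset (Option F))) (n := k - 3)
    (by rw [hopt]; omega)
  obtain ⟨-, hYc⟩ := hY
  have h2 : 1 < (Yᶜ).card := by
    rw [card_compl, Fintype.card_option, hYc]; omega
  obtain ⟨r1, hr1, r2, hr2, hne⟩ := Finset.one_lt_card.1 h2
  rw [mem_compl] at hr1 hr2
  obtain ⟨b1, b2, hb12, hb1k, hb2k, hb1q, hb2q⟩ : ∃ b1 b2 : ℕ, b1 + b2 = b ∧ b1 ≠ k ∧ b2 ≠ k ∧
      b1 ≤ Fintype.card F ∧ b2 ≤ Fintype.card F := by
    by_cases hbk : b = Fintype.card F + k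
    · exact ⟨Fintype.card F - 1, k + 1, by omega, by omega, by omega, by omega, by omega⟩
    · exact ⟨Fintype.card F, b - Fintype.card F, by omega, by omega, by omega, by omega,
        by omega⟩
  obtain ⟨P1, -, hP1⟩ := Finset.exists_subset_card_eq (s := (univ : Finset F)) (n := b1)
    (by rw [card_univ]; omega)
  obtain ⟨P2, -, hP2⟩ := Finset.exists_subset_card_eq (s := (univ : Finset F)) (n := b2)
    (by rw [card_univ]; omega)
  set s : Option F → Finset F := fun r =>
    if r ∈ Y then univ else if r = r1 then P1 else if r = r2 then P2 else ∅ with hs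
  have hs1 : ∀ r ∈ Y, s r = univ := by
    intro r hr; simp only [hs, if_pos hr]
  have hsr1 : s r1 = P1 := by simp only [hs, if_neg hr1, if_true]
  have hsr2 : s r2 = P2 := by simp only [hs, if_neg hr2, if_neg hne.symm, if_true]
  have hs0 : ∀ r, r ∉ Y → r ≠ r1 → r ≠ r2 → s r = ∅ := by
    intro r h1 h2 h3; simp only [hs, if_neg h1, if_neg h2, if_neg h3]
  refine ⟨Pool.Agent.H598R3.mk s false, ?_, ?_, ?_⟩
  · rw [Pool.Agent.H598R3.card_mk]
    have h3 : ∑ r, (s r).card = ∑ r ∈ Y, (s r).card + ∑ r ∈ Yᶜ, (s r).card :=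
      (Finset.sum_add_sum_compl Y _).symm
    have h4 : ∑ r ∈ Y, (s r).card = (k - 3) * Fintype.card F := by
      rw [Finset.sum_congr rfl (g := fun _ => Fintype.card F), sum_const, hYc, smul_eq_mul]
      intro r hr; rw [hs1 r hr, card_univ]
    have h5 : ∑ r ∈ Yᶜ, (s r).card = ∑ r ∈ ({r1, r2} : Finset (Option F)), (s r).card := by
      symm
      apply Finset.sum_subset
      · intro r hr
        rw [mem_insert, mem_singleton] at hr
        rw [mem_compl]
        rcases hr with rfl | rfl <;> assumption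
      · intro r hr hr'
        rw [mem_insert, mem_singleton, not_or] at hr'
        rw [mem_compl] at hr
        rw [hs0 r hr hr'.1 hr'.2, card_empty]
    rw [h3, h4, h5, Finset.sum_pair hne, hsr1, hsr2, hP1, hP2]
    simp; omega
  · intro r
    rw [card_row]
    simp only [Bool.false_eq_true, if_false, add_zero]
    by_cases h3 : r ∈ Y
    · rw [hs1 r h3, card_univ]; omega
    by_cases h4 : r = r1
    · rw [h4, hsr1, hP1]; exact hb1k
    by_cases h5 : r = r2
    · rw [h5, hsr2, hP2]; exact hb2k
    · rw [hs0 r h3 h4 h5, card_empty]; omega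
  · intro u v
    rw [card_lin']
    have h3 := lin_le s u v
    have h4 : ((univ : Finset (Option F)).filter (fun r => (s r).Nonempty)).card ≤
        (Y ∪ {r1, r2}).card := by
      apply card_le_card
      intro r hr
      rw [mem_filter] at hr
      rw [mem_union, mem_insert, mem_singleton]
      by_contra hcon
      rw [not_or, not_or] at hcon
      rw [hs0 r hcon.1 hcon.2.1 hcon.2.2] at hr
      exact Finset.not_nonempty_empty hr.2
    have h5 : (Y ∪ {r1, r2}).card ≤ (k - 3) + 2 := by
      refine (card_union_le _ _).trans ?_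
      have : ({r1, r2} : Finset (Option F)).card ≤ 2 := card_le_two
      omega
    omega

/-- all sizes up to `(k - 1) q` -/
lemma small_all {F : Type} [Field F] [Fintype F] [DecidableEq F] (k m : ℕ) (hk3 : 3 ≤ k)
    (hkq : k + 1 < Fintype.card F) (hm : m ≤ (k - 1) * Fintype.card F) : Sz F k m := by
  by_cases h1 : m < (k - 2) * Fintype.card F
  · exact small hk3 (by omega) h1
  push Not at h1
  obtain ⟨j, hj⟩ : ∃ j, k = j + 3 := ⟨k - 3, by omega⟩
  have e1 : (k - 2) * Fintype.card F = (k - 3) * Fintype.card F + Fintype.card F := by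
    rw [hj, show j + 3 - 2 = j + 1 by omega, show j + 3 - 3 = j by omega]; ring
  have e2 : (k - 1) * Fintype.card F = (k - 3) * Fintype.card F + 2 * Fintype.card F := by
    rw [hj, show j + 3 - 1 = j + 2 by omega, show j + 3 - 3 = j by omega]; ring
  have h2 := small_aux (F := F) k (m - (k - 3) * Fintype.card F) hk3 hkq (by omega) (by omega)
  rwa [Nat.add_sub_cancel' (by omega)] at h2

variable {F : Type} [Field F] [Fintype F] [DecidableEq F]

/-- all sizes for odd order and small `k` -/
theorem all_small (hF : ringChar F ≠ 2) (hq : (10 : ℝ) ^ 50 ≤ Fintype.card F) (k m : ℕ)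
    (hk : 70 ≤ k) (hk2 : (k : ℝ) ≤ 100 * Real.sqrt (Fintype.card F))
    (hm : m ≤ Fintype.card F ^ 2 + Fintype.card F + 1) : Sz F k m := by
  have hs := sqrt_small hq
  have hsq0 : 0 ≤ Real.sqrt (Fintype.card F : ℝ) := Real.sqrt_nonneg _
  have hk4 : 4 * k ≤ Fintype.card F := by
    have h1 : (400 : ℝ) * Real.sqrt (Fintype.card F : ℝ) ≤
        10 ^ 25 * Real.sqrt (Fintype.card F : ℝ) :=
      mul_le_mul_of_nonneg_right (by norm_num) hsq0
    have : (4 : ℝ) * k ≤ Fintype.card F := by linarith
    exact_mod_cast this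
  by_cases h1 : m ≤ (k - 1) * Fintype.card F
  · exact small_all k m (by omega) (by omega) h1
  push Not at h1
  by_cases h2 : m ≤ (k + 1) * Fintype.card F
  · apply mid_small hF hq k m hk hk2
    · have h3 : (((k - 1) * Fintype.card F : ℕ) : ℝ) ≤ m := by exact_mod_cast h1.le
      push_cast [Nat.cast_sub (show 1 ≤ k by omega)] at h3
      exact h3
    · exact_mod_cast h2
  push Not at h2
  obtain ⟨m', hm'⟩ : ∃ m', m + m' = Fintype.card F ^ 2 + Fintype.card F + 1 :=
    ⟨_, Nat.add_sub_cancel' hm⟩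
  obtain ⟨k', hk'⟩ : ∃ k', k + k' = Fintype.card F + 1 := ⟨Fintype.card F + 1 - k, by omega⟩
  have h3 : Sz F k' m' := by
    apply small_all k' m' (by omega) (by omega)
    have h4 : (k' - 1) + k = Fintype.card F := by omega
    have h5 : (k' - 1) * Fintype.card F + k * Fintype.card F = Fintype.card F ^ 2 := by
      rw [← add_mul, h4, sq]
    have h6 : (k + 1) * Fintype.card F = k * Fintype.card F + Fintype.card F := by ring
    omega
  exact h3.compl (by omega) (by omega)

/-- For every odd prime power `q ≥ 10 ^ 50` and every `k` with `70 ≤ k ≤ q + 1 - 70` the spectrum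
is complete. -/
theorem all_odd (hF : ringChar F ≠ 2) (hq : (10 : ℝ) ^ 50 ≤ Fintype.card F) (k m : ℕ)
    (hk : 70 ≤ k) (hk2 : k + 70 ≤ Fintype.card F + 1)
    (hm : m ≤ Fintype.card F ^ 2 + Fintype.card F + 1) : Sz F k m := by
  by_cases h1 : (k : ℝ) ≤ 100 * Real.sqrt (Fintype.card F)
  · exact all_small hF hq k m hk h1 hm
  push Not at h1
  by_cases h2 : (k : ℝ) < (Fintype.card F : ℝ) + 1 - 100 * Real.sqrt (Fintype.card F : ℝ)
  · exact all_sizes k h1 h2 m hm
  push Not at h2
  obtain ⟨m', hm'⟩ : ∃ m', m + m' = Fintype.card F ^ 2 + Fintype.card F + 1 :=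
    ⟨_, Nat.add_sub_cancel' hm⟩
  obtain ⟨k', hk'⟩ : ∃ k', k + k' = Fintype.card F + 1 := ⟨Fintype.card F + 1 - k, by omega⟩
  have hk'r : (k : ℝ) + k' = Fintype.card F + 1 := by exact_mod_cast hk'
  have h3 : Sz F k' m' := all_small hF hq k' m' (by omega) (by linarith) (by omega)
  exact h3.compl (by omega) (by omega)

end Pool.Agent.TH993.KA
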