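import Pool.Agent.TH993.KA.Struct

/-!
The sets of `Struct` are `k`-avoiding.
-/

set_option autoImplicit false
set_option linter.unusedSectionVars false

namespace Pool.Agent.TH993.KA

open Finset Pool.Agent.H598R3

variable {F : Type*} [Field F] [Fintype F] [DecidableEq F]

/-- possible contributions of the star and the triangle to the lines through a point of the line
of free points; `s` says whether there is a triangle -/
def Val (a : ℕ) (s : Bool) (p x : ℕ) : Prop :=
  x = p ∨ x + p = 2 * a ∨ (s = true ∧ (x = p + 2 ∨ x + p = 2 * a + 2))

/-- the same for the vertices of the star -/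
def Val' (a : ℕ) (s : Bool) (p x : ℕ) : Prop :=
  x = p ∨ x + p + 1 = 2 * a ∨ (s = true ∧ (x = p + 2 ∨ x + p + 1 = 2 * a + 2))

lemma two_ns (hF : ringChar F ≠ 2) : 2 * ns F + 1 = Fintype.card F := by
  have h1 : ∑ z : F, quadraticChar F z = 0 := quadraticChar_sum_zero hF
  have h2 : ∀ z : F, quadraticChar F z = 1 - (if z = 0 then 1 else 0) -
      2 * (if quadraticChar F z = -1 then 1 else 0) := by
    intro z
    by_cases hz : z = 0
    · subst hz
      simp
    · rcases quadraticChar_dichotomy hz with h | h <;> simp [h, hz]
  rw [Finset.sum_congr rfl (fun z _ => h2 z)] at h1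
  rw [Finset.sum_sub_distrib, Finset.sum_sub_distrib, ← Finset.mul_sum] at h1
  have h3 : ∑ z : F, (if quadraticChar F z = -1 then 1 else 0 : ℤ) = (ns F : ℤ) := by
    unfold ns
    rw [card_filter]
    push_cast
    rfl
  rw [h3] at h1
  simp only [sum_const, card_univ, smul_eq_mul, mul_one, sum_ite_eq', mem_univ, if_true,
    nsmul_eq_mul] at h1
  omega

lemma plus_card (A : Finset F) (r : F) :
    (A.filter (fun m => quadraticChar F (m - r) = 1)).card + pc A r +
      (if r ∈ A then 1 else 0) = A.card := by
  unfold pc
  rw [card_filter, card_filter, card_eq_sum_ones A]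
  have h : (if r ∈ A then 1 else 0 : ℕ) = ∑ m ∈ A, if m = r then 1 else 0 := by
    rw [Finset.sum_ite_eq']
  rw [h, ← Finset.sum_add_distrib, ← Finset.sum_add_distrib]
  apply Finset.sum_congr rfl
  intro m _
  by_cases hm : m = r
  · subst hm
    simp
  · rcases quadraticChar_dichotomy (sub_ne_zero.2 hm) with h | h <;> simp [h, hm]

variable {A F' G : Finset F} {ob : Option F}

lemma cA_pos {u v r : F} (hv : v = -(u * r)) (A : Finset F)
    (h : quadraticChar F u * quadraticChar F (1 - u) = 1) :
    (A.filter (fun m => quadraticChar F ((v + u * m) * (1 - u)) = -1)).card = pc A r := by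
  unfold pc
  congr 1
  apply Finset.filter_congr
  intro m _
  have h1 : (v + u * m) * (1 - u) = (u * (1 - u)) * (m - r) := by rw [hv]; ring
  rw [h1, map_mul, map_mul, h, one_mul]

lemma cA_neg {u v r : F} (hv : v = -(u * r)) (A : Finset F)
    (h : quadraticChar F u * quadraticChar F (1 - u) = -1) :
    (A.filter (fun m => quadraticChar F ((v + u * m) * (1 - u)) = -1)).card + pc A r +
      (if r ∈ A then 1 else 0) = A.card := by
  rw [← plus_card A r]
  congr 3
  apply Finset.filter_congr
  intro m _
  have h1 : (v + u * m) * (1 - u) = (u * (1 - u)) * (m - r) := by rw [hv]; ring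
  rw [h1, map_mul, map_mul, h]
  constructor
  · intro h2; linarith
  · intro h2; rw [h2]; norm_num

lemma card_DD_filter (h : Hyp A F' G ob) (P : F → Prop) [DecidablePred P] :
    ((DD A ob).filter P).card = (A.filter P).card +
      (match ob with | none => 0 | some b => if P b then 1 else 0) := by
  cases ob with
  | none => simp [DD]
  | some b =>
    have hb := (h.hb b rfl).1
    unfold DD
    rw [Option.toFinset_some, filter_union, card_union_of_disjoint]
    · congr 1
      rw [filter_singleton]
      split_ifs with h1 <;> simp [h1]
    · rw [Finset.disjoint_left]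
      intro x hx hx'
      rw [mem_filter] at hx hx'
      rw [mem_singleton] at hx'
      exact hb (hx'.1 ▸ hx.1)

lemma card_DD (h : Hyp A F' G ob) : (DD A ob).card = A.card + ob.toFinset.card := by
  cases ob with
  | none => simp [DD]
  | some b =>
    have hb := (h.hb b rfl).1
    unfold DD
    rw [card_union_of_disjoint]
    rw [Finset.disjoint_left]
    intro x hx hx'
    rw [Option.toFinset_some, mem_singleton] at hx'
    exact hb (hx' ▸ hx)

/-- the triangle: an even number of its sides is met -/
lemma triangle_even {u v r b : F} (hv : v = -(u * r)) (hu0 : u ≠ 0) (hu1 : 1 - u ≠ 0)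
    (hb : b ≠ r) :
    (if quadraticChar F ((v + u * b) * (1 - u)) = -1 then 1 else 0 : ℕ) +
      ((if quadraticChar F (1 - u) = -1 then 1 else 0) +
      (if quadraticChar F (u * b + v) = -1 then 1 else 0)) = 0 ∨
    (if quadraticChar F ((v + u * b) * (1 - u)) = -1 then 1 else 0 : ℕ) +
      ((if quadraticChar F (1 - u) = -1 then 1 else 0) +
      (if quadraticChar F (u * b + v) = -1 then 1 else 0)) = 2 := by
  have h1 : (v + u * b) * (1 - u) = (u * (b - r)) * (1 - u) := by rw [hv]; ring
  have h2 : u * b + v = u * (b - r) := by rw [hv]; ring
  rw [h1, h2, map_mul]
  have h3 : u * (b - r) ≠ 0 := mul_ne_zero hu0 (sub_ne_zero.2 hb)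
  rcases quadraticChar_dichotomy h3 with h | h <;>
    rcases quadraticChar_dichotomy hu1 with h' | h' <;> simp [h, h']

lemma G_filter {u v r : F} (hv : v = -(u * r)) (hu0 : u ≠ 0) :
    (G.filter (fun y => u * y + v = 0)).card = if r ∈ G then 1 else 0 := by
  have h : G.filter (fun y => u * y + v = 0) = G.filter (fun y => y = r) := by
    apply Finset.filter_congr
    intro y _
    rw [hv]
    constructor
    · intro h
      have : u * (y - r) = 0 := by linear_combination h
      rcases mul_eq_zero.1 this with h1 | h1
      · exact absurd h1 hu0
      · exact sub_eq_zero.1 h1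
    · rintro rfl; ring
  rw [h, Finset.filter_eq']
  split_ifs <;> simp

theorem Hyp.avoid (hF : ringChar F ≠ 2) (h : Hyp A F' G ob) (a i : ℕ) (hA : A.card = 2 * a)
    (hi0 : 3 ≤ i) (hi : i + 3 ≤ 2 * a)
    (hIn : ∀ r, r ∉ DD A ob → r ∉ F' → r ∉ G → ¬ Val a ob.isSome (pc A r) i)
    (hOut : ∀ r ∈ G, ¬ Val a ob.isSome (pc A r) (i - 1))
    (hEx : ∀ r ∈ A, ¬ Val' a ob.isSome (pc A r) i)
    (hk1 : F'.card + i < ns F) (hk2 : 2 * a + 2 < F'.card + i) (hGi : G.card ≠ i) :
    Avoid (F'.card + i) (Pool.Agent.H598R3.mk (Kf A F' G ob) false) := by
  classical
  have hns := two_ns hF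
  have hDD := card_DD h
  have hob : ob.toFinset.card ≤ 1 := by cases ob <;> simp
  constructor
  · intro r
    rw [card_row]
    simp only [Bool.false_eq_true, if_false, add_zero]
    cases r with
    | none =>
      simp only [Kf]
      split_ifs with h1
      · have h6 : ((univ : Finset F).filter (fun z => quadraticChar F (1 - z) = -1)).card =
            ns F := by
          unfold ns
          apply Finset.card_nbij' (fun y => 1 - y) (fun y => 1 - y)
          · intro y hy
            simpa using hy
          · intro y hy
            simpa using hy
          · intro y _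
            simp
          · intro y _
            simp
        rw [h6]
        omega
      · rw [card_empty]; omega
    | some y =>
      simp only [Kf]
      split_ifs with h1 h2 h3
      · rw [card_univ]; omega
      · change ns F ≠ _
        omega
      · have h4 : (star (DD A ob) y ∪ {0}).card ≤ (DD A ob).card + 1 := by
          refine (card_union_le _ _).trans ?_
          rw [card_singleton]
          have : (star (DD A ob) y).card ≤ (DD A ob).card :=
            card_image_le.trans (card_filter_le _ _)
          omega
        omega
      · rw [union_empty]
        have : (star (DD A ob) y).card ≤ (DD A ob).card :=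
          card_image_le.trans (card_filter_le _ _)
        omega
  · intro u v
    rw [card_lin', h.count]
    by_cases hu1 : u = 1
    · subst hu1
      rw [star_count_one]
      have h1 : EE ob 1 v ≤ 1 := by
        cases ob with
        | none => simp [EE]
        | some b =>
          simp only [EE, sub_self, MulChar.map_zero]
          norm_num
          split_ifs <;> simp
      have h2 := G_filter (G := G) (u := 1) (v := v) (r := -v) (by ring) one_ne_zero
      rw [h2]
      split_ifs <;> omega
    by_cases hu0 : u = 0
    · subst hu0
      rw [star_count _ _ _ hu1]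
      by_cases hv : v = 0
      · subst hv
        have h1 : EE ob (0 : F) 0 = 0 := by
          cases ob with
          | none => simp [EE]
          | some b => simp [EE]
        rw [h1]
        simp only [zero_mul, add_zero, sub_zero, mul_one, MulChar.map_zero]
        norm_num
        exact hGi
      · have h1 : (G.filter (fun y => 0 * y + v = 0)).card = 0 := by
          simp [hv]
        rw [h1]
        simp only [zero_mul, add_zero, sub_zero, mul_one]
        rcases quadraticChar_dichotomy hv with h2 | h2
        · have h3 : EE ob (0 : F) v = 0 := by
            cases ob with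
            | none => simp [EE]
            | some b => simp [EE, h2]
          rw [h3, h2]
          norm_num
          omega
        · have h3 : EE ob (0 : F) v = ob.toFinset.card := by
            cases ob with
            | none => simp [EE]
            | some b => simp [EE, h2]
          rw [h3, h2]
          simp only [filter_true]
          omega
    rw [star_count _ _ _ hu1]
    have hu1' : 1 - u ≠ 0 := sub_ne_zero.2 (Ne.symm hu1)
    obtain ⟨r, hv⟩ : ∃ r : F, v = -(u * r) := ⟨-v / u, by field_simp⟩
    rw [G_filter hv hu0, card_DD_filter h]
    have hcase : (A.filter (fun m => quadraticChar F ((v + u * m) * (1 - u)) = -1)).card =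
        pc A r ∨ (A.filter (fun m => quadraticChar F ((v + u * m) * (1 - u)) = -1)).card +
          pc A r + (if r ∈ A then 1 else 0) = A.card := by
      rcases quadraticChar_dichotomy hu0 with h1 | h1 <;>
        rcases quadraticChar_dichotomy hu1' with h2 | h2
      · exact Or.inl (cA_pos hv A (by rw [h1, h2]; norm_num))
      · exact Or.inr (cA_neg hv A (by rw [h1, h2]; norm_num))
      · exact Or.inr (cA_neg hv A (by rw [h1, h2]; norm_num))
      · exact Or.inl (cA_pos hv A (by rw [h1, h2]; norm_num))
    set c := (A.filter (fun m => quadraticChar F ((v + u * m) * (1 - u)) = -1)).card with hc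
    -- the fibre over `F'`
    have hpF : r ∈ F' → r ∉ A → pc A r = 0 ∨ pc A r = 2 * a := by
      intro hrF hrA
      by_cases hm1 : quadraticChar F (-1 : F) = 1
      · left
        unfold pc
        rw [card_eq_zero, Finset.filter_eq_empty_iff]
        intro m hm
        have h1 := h.hF' r hrF m (mem_DD.2 (Or.inl hm))
        have h2 : m - r = (-1) * (r - m) := by ring
        rw [h2, map_mul, hm1, h1]
        norm_num
      · right
        have hm1' : quadraticChar F (-1 : F) = -1 := by
          rcases quadraticChar_dichotomy (neg_ne_zero.2 (one_ne_zero (α := F))) with h1 | h1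
          · exact absurd h1 hm1
          · exact h1
        rw [← hA]
        unfold pc
        congr 1
        rw [Finset.filter_eq_self]
        intro m hm
        have h1 := h.hF' r hrF m (mem_DD.2 (Or.inl hm))
        have h2 : m - r = (-1) * (r - m) := by ring
        rw [h2, map_mul, hm1', h1]
        norm_num
    cases ob with
    | none =>
      simp only [EE, add_zero]
      simp only [Option.isSome_none] at hIn hOut hEx
      have hIn' := hIn r
      have hOut' := hOut r
      have hEx' := hEx r
      have hGD' := h.hGD r
      have hF1 : r ∈ F' → r ∉ A := by
        intro h1 h2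
        have := h.hF' r h1 r (mem_DD.2 (Or.inl h2))
        rw [sub_self, MulChar.map_zero] at this
        exact absurd this (by norm_num)
      simp only [mem_DD, reduceCtorEq, or_false] at hIn' hGD'
      simp only [Val, Val', Bool.false_eq_true, false_and, or_false] at hIn' hOut' hEx'
      by_cases hrA : r ∈ A
      · have h1 : r ∉ G := fun h2 => hGD' h2 hrA
        have h2 := hEx' hrA
        simp only [hrA, h1, if_true, if_false] at hcase ⊢
        omega
      · by_cases hrG : r ∈ G
        · have h2 := hOut' hrG
          simp only [hrA, hrG, if_true, if_false] at hcase ⊢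
          omega
        · by_cases hrF : r ∈ F'
          · have h3 := hpF hrF hrA
            simp only [hrA, hrG, if_false] at hcase ⊢
            omega
          · have h2 := hIn' hrA hrF hrG
            simp only [hrA, hrG, if_false] at hcase ⊢
            omega
    | some b =>
      have hbA := (h.hb b rfl).1
      have hbm := (h.hb b rfl).2
      simp only [Option.isSome_some] at hIn hOut hEx
      have hIn' := hIn r
      have hOut' := hOut r
      have hEx' := hEx r
      have hGD' := h.hGD r
      have hF1 : r ∈ F' → r ∉ A := by
        intro h1 h2
        have := h.hF' r h1 r (mem_DD.2 (Or.inl h2))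
        rw [sub_self, MulChar.map_zero] at this
        exact absurd this (by norm_num)
      simp only [mem_DD, Option.some.injEq] at hIn' hGD'
      simp only [Val, Val', true_and] at hIn' hOut' hEx'
      by_cases hrb : b = r
      · -- the slope of the triangle
        subst hrb
        have h1 : b ∉ G := fun h2 => hGD' h2 (Or.inr rfl)
        have h2 : (v + u * b) * (1 - u) = 0 := by rw [hv]; ring
        have h3 : u * b + v = 0 := by rw [hv]; ring
        have h4 : pc A b = 0 ∨ pc A b = 2 * a := by
          by_cases hm1 : quadraticChar F (-1 : F) = 1
          · left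
            unfold pc
            rw [card_eq_zero, Finset.filter_eq_empty_iff]
            intro m hm
            have h5 : m - b = (-1) * (b - m) := by ring
            rw [h5, map_mul, hm1, hbm m hm]
            norm_num
          · right
            have hm1' : quadraticChar F (-1 : F) = -1 := by
              rcases quadraticChar_dichotomy (neg_ne_zero.2 (one_ne_zero (α := F))) with h1 | h1
              · exact absurd h1 hm1
              · exact h1
            rw [← hA]
            unfold pc
            congr 1
            rw [Finset.filter_eq_self]
            intro m hm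
            have h5 : m - b = (-1) * (b - m) := by ring
            rw [h5, map_mul, hm1', hbm m hm]
            norm_num
        simp only [EE, h2, h3, MulChar.map_zero, h1, hbA, if_false] at hcase ⊢
        have h6 : ¬ ((0 : ℤ) = -1) := by norm_num
        simp only [h6, if_false]
        split_ifs <;> omega
      · have htri := triangle_even hv hu0 hu1' hrb
        simp only [EE]
        by_cases hrA : r ∈ A
        · have h1 : r ∉ G := fun h2 => hGD' h2 (Or.inl hrA)
          have h2 := hEx' hrA
          simp only [hrA, h1, if_true, if_false] at hcase ⊢
          omega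
        · by_cases hrG : r ∈ G
          · have h2 := hOut' hrG
            simp only [hrA, hrG, if_true, if_false] at hcase ⊢
            omega
          · by_cases hrF : r ∈ F'
            · have h3 := hpF hrF hrA
              simp only [hrA, hrG, if_false] at hcase ⊢
              omega
            · have h2 := hIn' (not_or.2 ⟨hrA, hrb⟩) hrF hrG
              simp only [hrA, hrG, if_false] at hcase ⊢
              omega

end Pool.Agent.TH993.KA
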