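import Pool.Agent.TH993.KA.Pattern

/-!
Existence of the star slopes.
-/

set_option autoImplicit false
set_option linter.unusedSectionVars false

namespace Pool.Agent.TH993.KA

open Finset

variable {F : Type} [Field F] [Fintype F] [DecidableEq F]

lemma cnt_large {ι : Type} (hF : ringChar F ≠ 2) (hq : (10 : ℝ) ^ 50 ≤ Fintype.card F)
    (I : Finset ι) (hI : I.card ≤ 61) (y : ι → F) (η : ι → ℤ)
    (hη : ∀ s, η s = 1 ∨ η s = -1) (hy : ∀ s ∈ I, ∀ t ∈ I, y s = y t → s = t) :
    200 * Real.sqrt (Fintype.card F) ≤ cnt I y η := by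
  have h := pattern hF I y η hη hy
  set q : ℝ := (Fintype.card F : ℝ) with hqd
  have hs0 : 0 ≤ Real.sqrt q := Real.sqrt_nonneg _
  have hss : Real.sqrt q * Real.sqrt q = q := Real.mul_self_sqrt (by positivity)
  have hs : (10 : ℝ) ^ 25 ≤ Real.sqrt q := by
    rw [show (10 : ℝ) ^ 25 = Real.sqrt ((10 : ℝ) ^ 50) by
      rw [show (10 : ℝ) ^ 50 = ((10 : ℝ) ^ 25) ^ 2 by norm_num, Real.sqrt_sq (by positivity)]]
    exact Real.sqrt_le_sqrt hq
  have h1 := (abs_le.1 h).1
  have hn : (I.card : ℝ) ≤ 61 := by exact_mod_cast hI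
  have h2 : (2 : ℝ) ^ I.card ≤ 2 ^ 61 := pow_le_pow_right₀ (by norm_num) hI
  have h3 : (0 : ℝ) < 2 ^ I.card := by positivity
  have h4 : (2 : ℝ) ^ I.card * (200 * Real.sqrt q) ≤ 2 ^ I.card * cnt I y η := by
    have h5 : (2 : ℝ) ^ I.card * (200 * Real.sqrt q + 6 * I.card * Real.sqrt q) ≤
        2 ^ 61 * (566 * Real.sqrt q) := by
      apply mul_le_mul h2 _ (by positivity) (by positivity)
      nlinarith
    have h6 : (2 : ℝ) ^ 61 * (566 * Real.sqrt q) ≤ q := by
      have : (2 : ℝ) ^ 61 * 566 ≤ Real.sqrt q := le_trans (by norm_num) hs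
      calc (2 : ℝ) ^ 61 * (566 * Real.sqrt q) = (2 ^ 61 * 566) * Real.sqrt q := by ring
        _ ≤ Real.sqrt q * Real.sqrt q := mul_le_mul_of_nonneg_right this hs0
        _ = q := hss
    linarith
  exact le_of_mul_le_mul_left h4 h3

lemma exists_pat {ι : Type} (hF : ringChar F ≠ 2) (hq : (10 : ℝ) ^ 50 ≤ Fintype.card F)
    (I : Finset ι) (hI : I.card ≤ 61) (y : ι → F) (η : ι → ℤ)
    (hη : ∀ s, η s = 1 ∨ η s = -1) (hy : ∀ s ∈ I, ∀ t ∈ I, y s = y t → s = t) :
    ∃ r : F, ∀ s ∈ I, quadraticChar F (r - y s) = η s := by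
  classical
  have h := cnt_large hF hq I hI y η hη hy
  have hs : 1 ≤ Real.sqrt (Fintype.card F : ℝ) := by
    rw [Real.one_le_sqrt]
    linarith [show (1 : ℝ) ≤ 10 ^ 50 by norm_num]
  have h1 : (0 : ℝ) < cnt I y η := by linarith
  have h2 : 0 < cnt I y η := by exact_mod_cast h1
  unfold cnt at h2
  obtain ⟨r, hr⟩ := card_pos.1 h2
  exact ⟨r, (mem_filter.1 hr).2⟩

lemma exists_seq (hF : ringChar F ≠ 2) (hq : (10 : ℝ) ^ 50 ≤ Fintype.card F) (σ : ℕ → ℕ → ℤ)
    (hσ : ∀ s t, σ s t = 1 ∨ σ s t = -1) (N : ℕ) (hN : N ≤ 60) :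
    ∃ y : ℕ → F, ∀ t < N, ∀ s < t, quadraticChar F (y t - y s) = σ s t := by
  induction N with
  | zero => exact ⟨fun _ => 0, fun t ht => absurd ht (by omega)⟩
  | succ N ih =>
    obtain ⟨y, hy⟩ := ih (by omega)
    have hinj : ∀ s ∈ range N, ∀ t ∈ range N, y s = y t → s = t := by
      intro s hs t ht hst
      rw [mem_range] at hs ht
      rcases lt_trichotomy s t with h | h | h
      · have h1 := hy t ht s h
        rw [hst, sub_self, MulChar.map_zero] at h1
        rcases hσ s t with h2 | h2 <;> rw [h2] at h1 <;> norm_num at h1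
      · exact h
      · have h1 := hy s hs t h
        rw [hst, sub_self, MulChar.map_zero] at h1
        rcases hσ t s with h2 | h2 <;> rw [h2] at h1 <;> norm_num at h1
    obtain ⟨r, hr⟩ := exists_pat hF hq (range N) (by rw [card_range]; omega) y
      (fun s => σ s N) (fun s => hσ s N) hinj
    refine ⟨Function.update y N r, ?_⟩
    intro t ht s hs
    rcases Nat.lt_succ_iff_lt_or_eq.1 ht with h | h
    · rw [Function.update_of_ne (by omega), Function.update_of_ne (by omega)]
      exact hy t h s hs
    · subst h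
      rw [Function.update_self, Function.update_of_ne (by omega)]
      exact hr s (mem_range.2 hs)

/-- orientation of the tournament on `60` vertices -/
def bet (s t : ℕ) : Bool := (decide (s < 30) && decide (30 ≤ t)) || decide ((s + t) % 2 = 0)

/-- the condition `χ (y t - y s) = -1` when `χ(-1) = -1` -/
def cnd (s t : ℕ) : Bool := (decide (s < t) && !bet s t) || (decide (t < s) && bet t s)

lemma cnd_count : ∀ s ∈ range 60, ((range 60).filter (fun t => cnd s t = true)).card ≤ 25 ∨
    34 ≤ ((range 60).filter (fun t => cnd s t = true)).card := by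
  decide +kernel

theorem exists_A (hF : ringChar F ≠ 2) (hq : (10 : ℝ) ^ 50 ≤ Fintype.card F) :
    ∃ A : Finset F, A.card = 60 ∧ ∀ r ∈ A, pc A r ≤ 25 ∨ 34 ≤ pc A r := by
  have key : ∀ (σ : ℕ → ℕ → ℤ) (hσ : ∀ s t, σ s t = 1 ∨ σ s t = -1) (y : ℕ → F)
      (_ : ∀ t < 60, ∀ s < t, quadraticChar F (y t - y s) = σ s t),
      (∀ s ∈ range 60, ∀ t ∈ range 60, y s = y t → s = t) := by
    intro σ hσ y hy s hs t ht hst
    rw [mem_range] at hs ht
    rcases lt_trichotomy s t with h | h | h
    · have h1 := hy t ht s h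
      rw [hst, sub_self, MulChar.map_zero] at h1
      rcases hσ s t with h2 | h2 <;> rw [h2] at h1 <;> norm_num at h1
    · exact h
    · have h1 := hy s hs t h
      rw [hst, sub_self, MulChar.map_zero] at h1
      rcases hσ t s with h2 | h2 <;> rw [h2] at h1 <;> norm_num at h1
  have hcard : ∀ y : ℕ → F, (∀ s ∈ range 60, ∀ t ∈ range 60, y s = y t → s = t) →
      ((range 60).image y).card = 60 := by
    intro y hy
    rw [card_image_of_injOn, card_range]
    intro s hs t ht hst
    exact hy s hs t ht hst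
  have hpc : ∀ y : ℕ → F, (∀ s ∈ range 60, ∀ t ∈ range 60, y s = y t → s = t) → ∀ r : F,
      pc ((range 60).image y) r =
        ((range 60).filter (fun t => quadraticChar F (y t - r) = -1)).card := by
    intro y hy r
    unfold pc
    rw [Finset.filter_image, card_image_of_injOn]
    intro s hs t ht hst
    simp only [coe_filter, Set.mem_ofPred_eq] at hs ht
    exact hy s hs.1 t ht.1 hst
  rcases quadraticChar_dichotomy (neg_ne_zero.2 (one_ne_zero (α := F))) with hm | hm
  · obtain ⟨y, hy⟩ := exists_seq hF hq (fun _ _ => 1) (fun _ _ => Or.inl rfl) 60 le_rfl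
    have hinj := key _ (fun _ _ => Or.inl rfl) y hy
    refine ⟨(range 60).image y, hcard y hinj, ?_⟩
    intro r hr
    left
    rw [hpc y hinj]
    obtain ⟨s, hs, rfl⟩ := mem_image.1 hr
    rw [mem_range] at hs
    have : (range 60).filter (fun t => quadraticChar F (y t - y s) = -1) = ∅ := by
      rw [Finset.filter_eq_empty_iff]
      intro t ht
      rw [mem_range] at ht
      rcases lt_trichotomy s t with h | h | h
      · rw [hy t ht s h]; norm_num
      · subst h
        rw [sub_self, MulChar.map_zero]; norm_num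
      · have h1 : y t - y s = (-1) * (y s - y t) := by ring
        rw [h1, map_mul, hm, hy s hs t h]; norm_num
    rw [this]
    simp
  · have hσ : ∀ s t : ℕ, (fun s t => if bet s t then (1 : ℤ) else -1) s t = 1 ∨
        (fun s t => if bet s t then (1 : ℤ) else -1) s t = -1 := by
      intro s t
      simp only
      split_ifs <;> simp
    obtain ⟨y, hy⟩ := exists_seq hF hq (fun s t => if bet s t then (1 : ℤ) else -1) hσ 60 le_rfl
    have hinj := key _ hσ y hy
    refine ⟨(range 60).image y, hcard y hinj, ?_⟩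
    intro r hr
    rw [hpc y hinj]
    obtain ⟨s, hs, rfl⟩ := mem_image.1 hr
    have hs' := mem_range.1 hs
    have : (range 60).filter (fun t => quadraticChar F (y t - y s) = -1) =
        (range 60).filter (fun t => cnd s t = true) := by
      apply Finset.filter_congr
      intro t ht
      rw [mem_range] at ht
      rcases lt_trichotomy s t with h | h | h
      · rw [hy t ht s h]
        have h2 : ¬ t < s := by omega
        simp only [cnd, h, h2, decide_true, decide_false, Bool.true_and, Bool.false_and,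
          Bool.or_false]
        cases bet s t <;> simp
      · subst h
        rw [sub_self, MulChar.map_zero]
        simp [cnd]
      · have h1 : y t - y s = (-1) * (y s - y t) := by ring
        rw [h1, map_mul, hm, hy s hs' t h]
        have h2 : ¬ s < t := by omega
        simp only [cnd, h, h2, decide_true, decide_false, Bool.true_and, Bool.false_and,
          Bool.false_or]
        cases bet t s <;> simp
    rw [this]
    exact cnd_count s hs

end Pool.Agent.TH993.KA
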