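import Pool.Agent.TH993.KA.Win
import Pool.Agent.H598R3.AvAll

/-!
All sizes for odd order and `k` between `70` and `100 √q`.
-/

set_option autoImplicit false
set_option linter.unusedSectionVars false

namespace Pool.Agent.TH993.KA

open Finset Pool.Agent.H598R3

variable {F : Type} [Field F] [Fintype F] [DecidableEq F]

lemma ch30 : Nat.choose 60 30 = 118264581564861424 := by
  rw [Nat.choose_eq_factorial_div_factorial (by norm_num)]; decide +kernel
lemma ch29 : Nat.choose 60 29 = 114449595062769120 := by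
  rw [Nat.choose_eq_factorial_div_factorial (by norm_num)]; decide +kernel
lemma ch31 : Nat.choose 60 31 = 114449595062769120 := by
  rw [Nat.choose_eq_factorial_div_factorial (by norm_num)]; decide +kernel
lemma ch28 : Nat.choose 60 28 = 103719945525634515 := by
  rw [Nat.choose_eq_factorial_div_factorial (by norm_num)]; decide +kernel
lemma ch32 : Nat.choose 60 32 = 103719945525634515 := by
  rw [Nat.choose_eq_factorial_div_factorial (by norm_num)]; decide +kernel
lemma ch27 : Nat.choose 60 27 = 88004802264174740 := by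
  rw [Nat.choose_eq_factorial_div_factorial (by norm_num)]; decide +kernel
lemma ch33 : Nat.choose 60 33 = 88004802264174740 := by
  rw [Nat.choose_eq_factorial_div_factorial (by norm_num)]; decide +kernel

lemma sqrt_big (hq : (10 : ℝ) ^ 50 ≤ Fintype.card F) :
    (10 : ℝ) ^ 25 ≤ Real.sqrt (Fintype.card F : ℝ) := by
  rw [show (10 : ℝ) ^ 25 = Real.sqrt ((10 : ℝ) ^ 50) by
    rw [show (10 : ℝ) ^ 50 = ((10 : ℝ) ^ 25) ^ 2 by norm_num, Real.sqrt_sq (by positivity)]]
  exact Real.sqrt_le_sqrt hq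

lemma sqrt_small (hq : (10 : ℝ) ^ 50 ≤ Fintype.card F) :
    (10 : ℝ) ^ 25 * Real.sqrt (Fintype.card F : ℝ) ≤ Fintype.card F := by
  have h1 := sqrt_big hq
  have h2 : Real.sqrt (Fintype.card F : ℝ) * Real.sqrt (Fintype.card F : ℝ) =
      Fintype.card F := Real.mul_self_sqrt (by positivity)
  have h3 : 0 ≤ Real.sqrt (Fintype.card F : ℝ) := Real.sqrt_nonneg _
  nlinarith

lemma RR_bound (hF : ringChar F ≠ 2) (hq : (10 : ℝ) ^ 50 ≤ Fintype.card F) (A : Finset F)
    (hA : A.card = 60) (P : Finset ℕ) (c : ℝ) (hc1 : c ≤ 1)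
    (hc : (∑ p ∈ P, (Nat.choose 60 p : ℝ)) ≤ c * 2 ^ 60) :
    ((RR A P).card : ℝ) ≤ (c + 1 / 10000) * Fintype.card F := by
  have h1 := RR_card hF A hA P
  have h2 := sqrt_small hq
  have h3 : 0 ≤ Real.sqrt (Fintype.card F : ℝ) := Real.sqrt_nonneg _
  set q : ℝ := (Fintype.card F : ℝ) with hqd
  have hq0 : 0 ≤ q := by rw [hqd]; positivity
  have h4 : (∑ p ∈ P, (Nat.choose 60 p : ℝ)) * (q / 2 ^ 60 + 360 * Real.sqrt q) ≤
      c * 2 ^ 60 * (q / 2 ^ 60 + 360 * Real.sqrt q) :=
    mul_le_mul_of_nonneg_right hc (by positivity)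
  have h5 : c * 2 ^ 60 * (q / 2 ^ 60 + 360 * Real.sqrt q) =
      c * q + c * (2 ^ 60 * 360 * Real.sqrt q) := by
    field_simp
  have h6 : c * (2 ^ 60 * 360 * Real.sqrt q) ≤ 2 ^ 60 * 360 * Real.sqrt q := by
    have : 0 ≤ 2 ^ 60 * 360 * Real.sqrt q := by positivity
    nlinarith
  have h7 : 2 ^ 60 * 360 * Real.sqrt q ≤ 1 / 10000 * q := by
    have h8 : (2 : ℝ) ^ 60 * 360 * 10000 ≤ 10 ^ 25 := by norm_num
    have h9 : (2 : ℝ) ^ 60 * 360 * 10000 * Real.sqrt q ≤ 10 ^ 25 * Real.sqrt q :=
      mul_le_mul_of_nonneg_right h8 h3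
    linarith
  linarith

theorem window' (hF : ringChar F ≠ 2) (hq : (10 : ℝ) ^ 50 ≤ Fintype.card F) (A : Finset F)
    (hA : A.card = 60) (hEx : ∀ r ∈ A, pc A r ≤ 25 ∨ 34 ≤ pc A r) (s : Bool) (i : ℕ)
    (hi1 : 30 ≤ i) (hi2 : i ≤ 33) (PI PO : Finset ℕ) (hPI : ∀ p, Val 30 s p i → p ∈ PI)
    (hPO : ∀ p, Val 30 s p (i - 1) → p ∈ PO) (hd : ∀ p ∈ PI, p ∉ PO) (k m : ℕ)
    (hk : 70 ≤ k) (hk2 : (k : ℝ) ≤ 100 * Real.sqrt (Fintype.card F))
    (h0 : (33 : ℝ) < m - ((k : ℝ) - i) * Fintype.card F -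
      (60 + 3 * s.toNat) * (((Fintype.card F : ℝ) - 1) / 2))
    (h1 : ((RR A PI).card : ℝ) ≤ m - ((k : ℝ) - i) * Fintype.card F -
      (60 + 3 * s.toNat) * (((Fintype.card F : ℝ) - 1) / 2))
    (h2 : m - ((k : ℝ) - i) * Fintype.card F -
      (60 + 3 * s.toNat) * (((Fintype.card F : ℝ) - 1) / 2) + (RR A PO).card + 61 + k ≤
        Fintype.card F) :
    Sz F k m := by
  have hns := two_ns hF
  have hnsr : (ns F : ℝ) = ((Fintype.card F : ℝ) - 1) / 2 := by
    have : (2 : ℝ) * ns F + 1 = Fintype.card F := by exact_mod_cast hns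
    linarith
  set T : ℕ := (k - i) * Fintype.card F + (60 + 3 * s.toNat) * ns F with hT
  have hTr : (T : ℝ) = ((k : ℝ) - i) * Fintype.card F +
      (60 + 3 * s.toNat) * (((Fintype.card F : ℝ) - 1) / 2) := by
    rw [hT, ← hnsr]
    push_cast [Nat.cast_sub (show i ≤ k by omega)]
    ring
  have hTm : T < m := by
    have : (T : ℝ) < m := by rw [hTr]; linarith
    exact_mod_cast this
  obtain ⟨t, ht⟩ : ∃ t, m = T + t := ⟨m - T, by omega⟩
  have htr : (t : ℝ) = m - ((k : ℝ) - i) * Fintype.card F -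
      (60 + 3 * s.toNat) * (((Fintype.card F : ℝ) - 1) / 2) := by
    rw [ht]; push_cast; rw [hTr]; ring
  rw [← htr] at h0 h1 h2
  have h := window hF hq A hA hEx s i hi1 hi2 PI PO hPI hPO hd k t hk hk2
    (by exact_mod_cast h0) (by exact_mod_cast h1) (by exact_mod_cast h2)
  rw [ht]
  exact h

theorem mid_small (hF : ringChar F ≠ 2) (hq : (10 : ℝ) ^ 50 ≤ Fintype.card F) (k m : ℕ)
    (hk : 70 ≤ k) (hk2 : (k : ℝ) ≤ 100 * Real.sqrt (Fintype.card F))
    (h1 : ((k : ℝ) - 1) * Fintype.card F ≤ m) (h2 : (m : ℝ) ≤ (k + 1) * Fintype.card F) :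
    Sz F k m := by
  obtain ⟨A, hA, hEx⟩ := exists_A hF hq
  have e0 : (∑ p ∈ ({30} : Finset ℕ), (Nat.choose 60 p : ℝ)) ≤ 0.1026 * 2 ^ 60 := by
    rw [Finset.sum_singleton, ch30]; norm_num
  have e1 : (∑ p ∈ ({29, 31} : Finset ℕ), (Nat.choose 60 p : ℝ)) ≤ 0.1986 * 2 ^ 60 := by
    rw [Finset.sum_pair (by norm_num), ch29, ch31]; norm_num
  have e02 : (∑ p ∈ ({28, 30, 32} : Finset ℕ), (Nat.choose 60 p : ℝ)) ≤ 0.2826 * 2 ^ 60 := by
    rw [Finset.sum_insert (by decide), Finset.sum_pair (by norm_num), ch28, ch30, ch32]; norm_num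
  have e13 : (∑ p ∈ ({27, 29, 31, 33} : Finset ℕ), (Nat.choose 60 p : ℝ)) ≤
      0.3513 * 2 ^ 60 := by
    rw [Finset.sum_insert (by decide), Finset.sum_insert (by decide),
      Finset.sum_pair (by norm_num), ch27, ch29, ch31, ch33]; norm_num
  have b0 := RR_bound hF hq A hA {30} 0.1026 (by norm_num) e0
  have b1 := RR_bound hF hq A hA {29, 31} 0.1986 (by norm_num) e1
  have b02 := RR_bound hF hq A hA {28, 30, 32} 0.2826 (by norm_num) e02
  have b13 := RR_bound hF hq A hA {27, 29, 31, 33} 0.3513 (by norm_num) e13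
  have hs := sqrt_small hq
  set q : ℝ := (Fintype.card F : ℝ) with hqd
  have hsq0 : 0 ≤ Real.sqrt q := Real.sqrt_nonneg _
  have hkq : (k : ℝ) ≤ 1 / 10000 * q := by
    have : (10 : ℝ) ^ 6 * Real.sqrt q ≤ 10 ^ 25 * Real.sqrt q :=
      mul_le_mul_of_nonneg_right (by norm_num) hsq0
    linarith
  have hqb : (10 : ℝ) ^ 10 ≤ q := le_trans (by norm_num) hq
  rcases le_or_gt (m : ℝ) (k * q - 0.79 * q) with c1 | c1
  · refine window' hF hq A hA hEx true 33 (by norm_num) (by norm_num) {27, 29, 31, 33}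
      {28, 30, 32} ?_ ?_ (by decide) k m hk hk2 ?_ ?_ ?_
    · intro p hp
      unfold Val at hp
      simp only [mem_insert, mem_singleton]
      omega
    · intro p hp
      unfold Val at hp
      simp only [mem_insert, mem_singleton]
      omega
    all_goals
      simp only [Bool.toNat_true]
      push_cast
      linarith
  rcases le_or_gt (m : ℝ) (k * q - 0.15 * q) with c2 | c2
  · refine window' hF hq A hA hEx false 31 (by norm_num) (by norm_num) {29, 31}
      {30} ?_ ?_ (by decide) k m hk hk2 ?_ ?_ ?_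
    · intro p hp
      unfold Val at hp
      simp only [mem_insert, mem_singleton]
      simp only [Bool.false_eq_true, false_and, or_false] at hp
      omega
    · intro p hp
      unfold Val at hp
      simp only [mem_singleton]
      simp only [Bool.false_eq_true, false_and, or_false] at hp
      omega
    all_goals
      simp only [Bool.toNat_false]
      push_cast
      linarith
  rcases le_or_gt (m : ℝ) (k * q + 0.2 * q) with c3 | c3
  · refine window' hF hq A hA hEx true 32 (by norm_num) (by norm_num) {28, 30, 32}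
      {29, 31} ?_ ?_ (by decide) k m hk hk2 ?_ ?_ ?_
    · intro p hp
      unfold Val at hp
      simp only [mem_insert, mem_singleton]
      omega
    · intro p hp
      unfold Val at hp
      simp only [mem_insert, mem_singleton]
      omega
    all_goals
      simp only [Bool.toNat_true]
      push_cast
      linarith
  rcases le_or_gt (m : ℝ) (k * q + 0.75 * q) with c4 | c4
  · refine window' hF hq A hA hEx false 30 (by norm_num) (by norm_num) {30}
      {29, 31} ?_ ?_ (by decide) k m hk hk2 ?_ ?_ ?_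
    · intro p hp
      unfold Val at hp
      simp only [mem_singleton]
      simp only [Bool.false_eq_true, false_and, or_false] at hp
      omega
    · intro p hp
      unfold Val at hp
      simp only [mem_insert, mem_singleton]
      simp only [Bool.false_eq_true, false_and, or_false] at hp
      omega
    all_goals
      simp only [Bool.toNat_false]
      push_cast
      linarith
  · refine window' hF hq A hA hEx true 31 (by norm_num) (by norm_num) {29, 31}
      {28, 30, 32} ?_ ?_ (by decide) k m hk hk2 ?_ ?_ ?_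
    · intro p hp
      unfold Val at hp
      simp only [mem_insert, mem_singleton]
      omega
    · intro p hp
      unfold Val at hp
      simp only [mem_insert, mem_singleton]
      omega
    all_goals
      simp only [Bool.toNat_true]
      push_cast
      linarith

end Pool.Agent.TH993.KA
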