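import Pool.Agent.TH993.KA.Avoid
import Pool.Agent.H341R2.Stepanov

/-!
Weil's bound: the number of elements `r` with prescribed `χ(r - y_s)`.
-/

set_option autoImplicit false
set_option linter.unusedSectionVars false

namespace Pool.Agent.TH993.KA

open Finset Polynomial

variable {F : Type} [Field F] [Fintype F] [DecidableEq F]

lemma not_square {ι : Type} (U : Finset ι) (hU : U.Nonempty) (y : ι → F)
    (hy : ∀ s ∈ U, ∀ t ∈ U, y s = y t → s = t) (c : F) (h : F[X]) :
    ∏ s ∈ U, (X - C (y s)) ≠ C c * h ^ 2 := by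
  intro heq
  have hsep : (∏ s ∈ U, (X - C (y s))).Separable := by
    rw [Polynomial.separable_prod_X_sub_C_iff']
    intro s hs t ht hst
    exact hy s hs t ht hst
  have hsq : Squarefree (∏ s ∈ U, (X - C (y s))) := hsep.squarefree
  have hu : IsUnit h := by
    apply hsq h
    rw [heq, sq]
    exact Dvd.intro_left _ rfl
  have hd : (∏ s ∈ U, (X - C (y s))).natDegree = U.card := by
    rw [natDegree_prod_of_monic _ _ (fun s _ => monic_X_sub_C _)]
    simp
  obtain ⟨e, -, he⟩ := Polynomial.isUnit_iff.1 hu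
  rw [heq, ← he, ← C_pow, ← C_mul, natDegree_C] at hd
  exact absurd hd.symm (card_ne_zero.2 hU)

lemma char_sum {ι : Type} (hF : ringChar F ≠ 2) (U : Finset ι) (hU : U.Nonempty) (y : ι → F)
    (hy : ∀ s ∈ U, ∀ t ∈ U, y s = y t → s = t) :
    |∑ r : F, ∏ s ∈ U, (quadraticChar F (r - y s) : ℝ)| ≤
      5 * U.card * Real.sqrt (Fintype.card F) := by
  have h1 : ∀ r : F, ∏ s ∈ U, (quadraticChar F (r - y s) : ℝ) =
      (quadraticChar F ((∏ s ∈ U, (X - C (y s))).eval r) : ℝ) := by
    intro r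
    rw [eval_prod, map_prod]
    push_cast
    simp
  simp_rw [h1]
  have hd : (∏ s ∈ U, (X - C (y s))).natDegree = U.card := by
    rw [natDegree_prod_of_monic _ _ (fun s _ => monic_X_sub_C _)]
    simp
  have h2 := Pool.Agent.H341R2.weil_bound hF (∏ s ∈ U, (X - C (y s)))
    (by rw [hd]; exact card_pos.2 hU) (fun c h => not_square U hU y hy c h)
  rw [hd] at h2
  exact h2

open Classical in
/-- the number of `r` with the pattern `η` -/
noncomputable def cnt {ι : Type} (I : Finset ι) (y : ι → F) (η : ι → ℤ) : ℕ :=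
  ((univ : Finset F).filter (fun r => ∀ s ∈ I, quadraticChar F (r - y s) = η s)).card

lemma prod_bounds {ι : Type} (I : Finset ι) (y : ι → F) (η : ι → ℤ)
    (hη : ∀ s, η s = 1 ∨ η s = -1) (r : F) :
    0 ≤ ∏ s ∈ I, (1 + (η s : ℝ) * (quadraticChar F (r - y s) : ℝ)) ∧
    ∏ s ∈ I, (1 + (η s : ℝ) * (quadraticChar F (r - y s) : ℝ)) ≤ 2 ^ I.card := by
  have h0 : ∀ s, 0 ≤ 1 + (η s : ℝ) * (quadraticChar F (r - y s) : ℝ) ∧
      1 + (η s : ℝ) * (quadraticChar F (r - y s) : ℝ) ≤ 2 := by
    intro s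
    by_cases hz : r - y s = 0
    · rw [hz, MulChar.map_zero]; norm_num
    · rcases quadraticChar_dichotomy hz with h | h <;> rcases hη s with h' | h' <;>
        rw [h, h'] <;> norm_num
  constructor
  · exact Finset.prod_nonneg (fun s _ => (h0 s).1)
  · calc ∏ s ∈ I, (1 + (η s : ℝ) * (quadraticChar F (r - y s) : ℝ)) ≤ ∏ s ∈ I, (2 : ℝ) :=
        Finset.prod_le_prod (fun s _ => (h0 s).1) (fun s _ => (h0 s).2)
      _ = 2 ^ I.card := by rw [prod_const]

open Classical in
lemma prod_eq {ι : Type} (I : Finset ι) (y : ι → F) (η : ι → ℤ)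
    (hη : ∀ s, η s = 1 ∨ η s = -1) (r : F) (hr : ∀ s ∈ I, r ≠ y s) :
    ∏ s ∈ I, (1 + (η s : ℝ) * (quadraticChar F (r - y s) : ℝ)) =
      if (∀ s ∈ I, quadraticChar F (r - y s) = η s) then 2 ^ I.card else 0 := by
  split_ifs with h
  · rw [← prod_const]
    apply Finset.prod_congr rfl
    intro s hs
    rw [h s hs]
    rcases hη s with h' | h' <;> rw [h'] <;> norm_num
  · push Not at h
    obtain ⟨s, hs, h1⟩ := h
    apply Finset.prod_eq_zero hs
    rcases quadraticChar_dichotomy (sub_ne_zero.2 (hr s hs)) with h2 | h2 <;>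
      rcases hη s with h' | h' <;> first
        | exact absurd (h2.trans h'.symm) h1
        | (rw [h2, h']; norm_num)

theorem pattern {ι : Type} (hF : ringChar F ≠ 2) (I : Finset ι) (y : ι → F) (η : ι → ℤ)
    (hη : ∀ s, η s = 1 ∨ η s = -1) (hy : ∀ s ∈ I, ∀ t ∈ I, y s = y t → s = t) :
    |(2 : ℝ) ^ I.card * cnt I y η - Fintype.card F| ≤
      2 ^ I.card * (6 * I.card * Real.sqrt (Fintype.card F)) := by
  classical
  set q : ℝ := (Fintype.card F : ℝ) with hq
  have hq1 : 1 ≤ Real.sqrt q := by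
    rw [Real.one_le_sqrt, hq]
    have : 1 ≤ Fintype.card F := Fintype.card_pos
    exact_mod_cast this
  set n := I.card with hn
  set P : F → ℝ := fun r => ∏ s ∈ I, (1 + (η s : ℝ) * (quadraticChar F (r - y s) : ℝ)) with hP
  -- comparison of the count with the sum of the products
  have h1 : |(2 : ℝ) ^ n * cnt I y η - ∑ r : F, P r| ≤ 2 ^ n * n := by
    have h2 : (2 : ℝ) ^ n * cnt I y η =
        ∑ r : F, if (∀ s ∈ I, quadraticChar F (r - y s) = η s) then (2 : ℝ) ^ n else 0 := by
      unfold cnt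
      rw [← Finset.sum_filter, sum_const, nsmul_eq_mul, mul_comm]
    rw [h2, ← Finset.sum_sub_distrib]
    refine (Finset.abs_sum_le_sum_abs _ _).trans ?_
    have h3 : ∀ r : F, |(if (∀ s ∈ I, quadraticChar F (r - y s) = η s) then (2 : ℝ) ^ n else 0) -
        P r| ≤ if r ∈ I.image y then 2 ^ n else 0 := by
      intro r
      by_cases hr : r ∈ I.image y
      · rw [if_pos hr]
        have hb := prod_bounds I y η hη r
        rw [abs_le]
        have h2n : (0 : ℝ) ≤ 2 ^ n := by positivity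
        split_ifs <;> constructor <;> simp only [hP] <;> linarith
      · rw [if_neg hr]
        have h4 : ∀ s ∈ I, r ≠ y s := by
          intro s hs h5
          exact hr (mem_image.2 ⟨s, hs, h5.symm⟩)
        simp only [hP]
        rw [prod_eq I y η hη r h4, sub_self, abs_zero]
    refine (Finset.sum_le_sum (fun r _ => h3 r)).trans ?_
    rw [← Finset.sum_filter, sum_const, nsmul_eq_mul]
    have h4 : ((univ.filter (fun r => r ∈ I.image y)).card : ℝ) ≤ n := by
      have : (univ.filter (fun r => r ∈ I.image y)) = I.image y := by ext; simp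
      rw [this]
      exact_mod_cast card_image_le
    have h2n : (0 : ℝ) ≤ 2 ^ n := by positivity
    nlinarith
  -- expansion
  have h2 : ∑ r : F, P r = ∑ U ∈ I.powerset, (∏ s ∈ U, (η s : ℝ)) *
      ∑ r : F, ∏ s ∈ U, (quadraticChar F (r - y s) : ℝ) := by
    have h3 : ∀ r : F, P r = ∑ U ∈ I.powerset, (∏ s ∈ U, (η s : ℝ)) *
        ∏ s ∈ U, (quadraticChar F (r - y s) : ℝ) := by
      intro r
      simp only [hP]
      rw [Finset.prod_one_add]
      apply Finset.sum_congr rfl
      intro U _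
      rw [Finset.prod_mul_distrib]
    simp_rw [h3]
    rw [Finset.sum_comm]
    apply Finset.sum_congr rfl
    intro U _
    rw [Finset.mul_sum]
  have h3 : |∑ r : F, P r - q| ≤ 2 ^ n * (5 * n * Real.sqrt q) := by
    have h4 : ∑ r : F, P r - q = ∑ U ∈ I.powerset, (if U = ∅ then 0 else
        (∏ s ∈ U, (η s : ℝ)) * ∑ r : F, ∏ s ∈ U, (quadraticChar F (r - y s) : ℝ)) := by
      rw [h2]
      have h5 : ∀ U ∈ I.powerset, (∏ s ∈ U, (η s : ℝ)) *
          ∑ r : F, ∏ s ∈ U, (quadraticChar F (r - y s) : ℝ) =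
          (if U = ∅ then q else 0) + (if U = ∅ then 0 else
          (∏ s ∈ U, (η s : ℝ)) * ∑ r : F, ∏ s ∈ U, (quadraticChar F (r - y s) : ℝ)) := by
        intro U _
        split_ifs with h6
        · subst h6
          simp [hq]
        · ring
      rw [Finset.sum_congr rfl h5, Finset.sum_add_distrib, Finset.sum_ite_eq']
      simp
    rw [h4]
    refine (Finset.abs_sum_le_sum_abs _ _).trans ?_
    have h5 : ∀ U ∈ I.powerset, |(if U = ∅ then 0 else
        (∏ s ∈ U, (η s : ℝ)) * ∑ r : F, ∏ s ∈ U, (quadraticChar F (r - y s) : ℝ))| ≤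
        5 * n * Real.sqrt q := by
      intro U hU
      rw [mem_powerset] at hU
      split_ifs with h6
      · rw [abs_zero]; positivity
      · rw [abs_mul]
        have h7 : |∏ s ∈ U, (η s : ℝ)| = 1 := by
          rw [Finset.abs_prod]
          apply Finset.prod_eq_one
          intro s _
          rcases hη s with h' | h' <;> rw [h'] <;> norm_num
        rw [h7, one_mul]
        have h8 := char_sum hF U (nonempty_iff_ne_empty.2 h6) y
          (fun s hs t ht => hy s (hU hs) t (hU ht))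
        refine h8.trans ?_
        have h9 : (U.card : ℝ) ≤ n := by exact_mod_cast card_le_card hU
        have h10 : 0 ≤ Real.sqrt (Fintype.card F : ℝ) := Real.sqrt_nonneg _
        rw [hq]
        nlinarith
    refine (Finset.sum_le_sum h5).trans ?_
    rw [sum_const, card_powerset, nsmul_eq_mul]
    push_cast
    exact le_refl _
  have h4 : (2 : ℝ) ^ n * n ≤ 2 ^ n * (n * Real.sqrt q) := by
    have h2n : (0 : ℝ) ≤ 2 ^ n := by positivity
    have hn0 : (0 : ℝ) ≤ n := by positivity
    apply mul_le_mul_of_nonneg_left _ h2n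
    nlinarith
  calc |(2 : ℝ) ^ n * cnt I y η - q| =
      |((2 : ℝ) ^ n * cnt I y η - ∑ r : F, P r) + (∑ r : F, P r - q)| := by ring_nf
    _ ≤ |(2 : ℝ) ^ n * cnt I y η - ∑ r : F, P r| + |∑ r : F, P r - q| := abs_add_le _ _
    _ ≤ 2 ^ n * n + 2 ^ n * (5 * n * Real.sqrt q) := add_le_add h1 h3
    _ ≤ 2 ^ n * (n * Real.sqrt q) + 2 ^ n * (5 * n * Real.sqrt q) := by linarith
    _ = 2 ^ n * (6 * n * Real.sqrt q) := by ring

end Pool.Agent.TH993.KA
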