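import Pool.Agent.H598R3.AvSmall

/-!
`k`-avoiding sets of `PG(2,q)`, `q` odd: a star of half-lines, optionally with a projective
triangle, full lines through the centre and free points on one line.
-/

set_option autoImplicit false
set_option linter.unusedSectionVars false

namespace Pool.Agent.TH993.KA

open Finset Pool.Agent.H598R3

variable {F : Type*} [Field F] [Fintype F] [DecidableEq F]

/-- the points of the star on the row `y` -/
def star (D : Finset F) (y : F) : Finset F :=
  (D.filter (fun m => quadraticChar F (y - m) = -1)).image (fun m => y - m)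

/-- the number of nonsquares -/
def ns (F : Type*) [Field F] [Fintype F] [DecidableEq F] : ℕ :=
  ((univ : Finset F).filter (fun z => quadraticChar F z = -1)).card

/-- the number of `m ∈ A` such that `m - r` is a nonsquare -/
def pc (A : Finset F) (r : F) : ℕ := (A.filter (fun m => quadraticChar F (m - r) = -1)).card

/-- the slopes of the star -/
def DD (A : Finset F) (ob : Option F) : Finset F := A ∪ ob.toFinset

/-- the family of subsets of the lines through the centre -/
def Kf (A F' G : Finset F) (ob : Option F) : Option F → Finset F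
  | none => if ob.isSome then univ.filter (fun z => quadraticChar F (1 - z) = -1) else ∅
  | some y => if y ∈ F' then univ else
      if ob = some y then univ.filter (fun z => quadraticChar F z = -1)
      else star (DD A ob) y ∪ (if y ∈ G then {0} else ∅)

/-- contribution of the two sides through the centre -/
def EE (ob : Option F) (u v : F) : ℕ :=
  match ob with
  | none => 0
  | some b => (if quadraticChar F (1 - u) = -1 then 1 else 0) +
      (if quadraticChar F (u * b + v) = -1 then 1 else 0)

lemma mem_star {D : Finset F} {y x : F} :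
    x ∈ star D y ↔ y - x ∈ D ∧ quadraticChar F x = -1 := by
  unfold star
  rw [mem_image]
  constructor
  · rintro ⟨m, hm, rfl⟩
    rw [mem_filter] at hm
    rw [sub_sub_cancel]
    exact hm
  · rintro ⟨h1, h2⟩
    refine ⟨y - x, ?_, sub_sub_cancel y x⟩
    rw [mem_filter, sub_sub_cancel]
    exact ⟨h1, h2⟩

lemma zero_notMem_star (D : Finset F) (y : F) : (0 : F) ∉ star D y := by
  rw [mem_star]
  rintro ⟨-, h⟩
  rw [MulChar.map_zero] at h
  exact absurd h (by norm_num)

lemma chi_mul_sq {x c : F} (hc : c ≠ 0) : quadraticChar F (x * c ^ 2) = quadraticChar F x := by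
  rw [map_mul, quadraticChar_sq_one' hc, mul_one]

lemma star_count (D : Finset F) (u v : F) (hu : u ≠ 1) :
    ((univ : Finset F).filter (fun y => u * y + v ∈ star D y)).card =
      (D.filter (fun m => quadraticChar F ((v + u * m) * (1 - u)) = -1)).card := by
  have hu' : (1 - u) ≠ 0 := sub_ne_zero.2 (Ne.symm hu)
  apply Finset.card_nbij' (fun y => y - (u * y + v)) (fun m => (v + m) / (1 - u))
  · intro y hy
    simp only [coe_filter, mem_univ, true_and, Set.mem_ofPred_eq, mem_star] at hy ⊢
    refine ⟨hy.1, ?_⟩
    have h : (v + u * (y - (u * y + v))) * (1 - u) = (u * y + v) * (1 - u) ^ 2 := by ring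
    rw [h, chi_mul_sq hu']
    exact hy.2
  · intro m hm
    simp only [coe_filter, mem_univ, true_and, Set.mem_ofPred_eq, mem_star] at hm ⊢
    have h1 : u * ((v + m) / (1 - u)) + v = (v + u * m) / (1 - u) := by
      field_simp
      ring
    have h2 : (v + m) / (1 - u) - (v + u * m) / (1 - u) = m := by
      field_simp
      ring
    rw [h1, h2]
    refine ⟨hm.1, ?_⟩
    have h3 : (v + u * m) * (1 - u) = ((v + u * m) / (1 - u)) * (1 - u) ^ 2 := by
      field_simp
    rw [h3, chi_mul_sq hu'] at hm
    exact hm.2
  · intro y _
    simp only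
    field_simp
    ring
  · intro m _
    simp only
    field_simp
    ring

lemma star_count_one (D : Finset F) (v : F) :
    ((univ : Finset F).filter (fun y => 1 * y + v ∈ star D y)).card =
      if -v ∈ D then ns F else 0 := by
  have h : ∀ y : F, 1 * y + v ∈ star D y ↔ (-v ∈ D ∧ quadraticChar F (y + v) = -1) := by
    intro y
    rw [mem_star, one_mul]
    have : y - (y + v) = -v := by ring
    rw [this]
  simp_rw [h]
  split_ifs with h1
  · simp only [h1, true_and]
    unfold ns
    apply Finset.card_nbij' (fun y => y + v) (fun y => y - v)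
    · intro y hy
      simpa using hy
    · intro y hy
      simpa using hy
    · intro y _
      simp
    · intro y _
      simp
  · simp [h1]

lemma star_empty {D : Finset F} {y : F} (h : ∀ m ∈ D, quadraticChar F (y - m) ≠ -1) :
    star D y = ∅ := by
  rw [Finset.eq_empty_iff_forall_notMem]
  intro x hx
  rw [mem_star] at hx
  apply h _ hx.1
  rw [sub_sub_cancel]
  exact hx.2

lemma mem_DD {A : Finset F} {ob : Option F} {m : F} : m ∈ DD A ob ↔ m ∈ A ∨ ob = some m := by
  unfold DD
  rw [mem_union, Option.mem_toFinset, Option.mem_def]

/-- the standing hypotheses -/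
structure Hyp (A F' G : Finset F) (ob : Option F) : Prop where
  hb : ∀ b, ob = some b → b ∉ A ∧ ∀ m ∈ A, quadraticChar F (b - m) = 1
  hF' : ∀ y ∈ F', ∀ m ∈ DD A ob, quadraticChar F (y - m) = 1
  hGD : ∀ y ∈ G, y ∉ DD A ob
  hGF : ∀ y ∈ G, y ∉ F'

variable {A F' G : Finset F} {ob : Option F}

lemma Hyp.notF (h : Hyp A F' G ob) {b : F} (hb : ob = some b) : b ∉ F' := by
  intro hF
  have := h.hF' b hF b (mem_DD.2 (Or.inr hb))
  rw [sub_self, MulChar.map_zero] at this
  exact absurd this (by norm_num)

lemma Hyp.starF (h : Hyp A F' G ob) {y : F} (hy : y ∈ F') : star (DD A ob) y = ∅ := by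
  apply star_empty
  intro m hm
  rw [h.hF' y hy m hm]
  norm_num

lemma Hyp.starb (h : Hyp A F' G ob) {b : F} (hb : ob = some b) : star (DD A ob) b = ∅ := by
  apply star_empty
  intro m hm
  rw [mem_DD] at hm
  rcases hm with hm | hm
  · rw [(h.hb b hb).2 m hm]; norm_num
  · rw [hb, Option.some.injEq] at hm
    rw [hm, sub_self, MulChar.map_zero]; norm_num

/-- membership in a row as a sum of four indicators -/
lemma Hyp.row_ind (h : Hyp A F' G ob) (y x : F) :
    (if x ∈ Kf A F' G ob (some y) then 1 else 0 : ℕ) =
      (if y ∈ F' then 1 else 0) + (if ob = some y ∧ quadraticChar F x = -1 then 1 else 0) +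
      (if x ∈ star (DD A ob) y then 1 else 0) + (if y ∈ G ∧ x = 0 then 1 else 0) := by
  simp only [Kf]
  by_cases h1 : y ∈ F'
  · have h2 : ob ≠ some y := fun h3 => h.notF h3 h1
    have h3 : y ∉ G := fun h4 => h.hGF y h4 h1
    simp [h1, h2, h3, h.starF h1]
  · simp only [h1, if_false, zero_add]
    by_cases h2 : ob = some y
    · have h3 : y ∉ G := fun h4 => h.hGD y h4 (mem_DD.2 (Or.inr h2))
      rw [h.starb h2]
      simp [h2, h3]
    · simp only [h2, if_false, false_and, zero_add, mem_union]
      by_cases h3 : y ∈ G
      · simp only [h3, if_true, mem_singleton, true_and]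
        by_cases h4 : x = 0
        · subst h4
          simp [zero_notMem_star]
        · simp [h4]
      · simp [h3]

lemma Hyp.count (h : Hyp A F' G ob) (u v : F) :
    ((univ : Finset (Option F)).filter (fun r => pos u v r ∈ Kf A F' G ob r)).card =
      F'.card + EE ob u v +
      ((univ : Finset F).filter (fun y => u * y + v ∈ star (DD A ob) y)).card +
      (G.filter (fun y => u * y + v = 0)).card := by
  rw [card_filter, Fintype.sum_option]
  show (if u ∈ Kf A F' G ob none then 1 else 0 : ℕ) +
    ∑ y : F, (if u * y + v ∈ Kf A F' G ob (some y) then 1 else 0 : ℕ) = _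
  have h1 : ∑ y : F, (if u * y + v ∈ Kf A F' G ob (some y) then 1 else 0 : ℕ) =
      ∑ y : F, (if y ∈ F' then 1 else 0) +
      ∑ y : F, (if ob = some y ∧ quadraticChar F (u * y + v) = -1 then 1 else 0) +
      ∑ y : F, (if u * y + v ∈ star (DD A ob) y then 1 else 0) +
      ∑ y : F, (if y ∈ G ∧ u * y + v = 0 then 1 else 0) := by
    rw [← Finset.sum_add_distrib, ← Finset.sum_add_distrib, ← Finset.sum_add_distrib]
    apply Finset.sum_congr rfl
    intro y _
    exact h.row_ind y _
  rw [h1]
  have h2 : ∑ y : F, (if y ∈ F' then 1 else 0 : ℕ) = F'.card := by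
    rw [Finset.sum_ite_mem, univ_inter, sum_const, smul_eq_mul, mul_one]
  have h3 : ∑ y : F, (if u * y + v ∈ star (DD A ob) y then 1 else 0 : ℕ) =
      ((univ : Finset F).filter (fun y => u * y + v ∈ star (DD A ob) y)).card := by
    rw [card_filter]
  have h4 : ∑ y : F, (if y ∈ G ∧ u * y + v = 0 then 1 else 0 : ℕ) =
      (G.filter (fun y => u * y + v = 0)).card := by
    rw [← card_filter]
    congr 1
    ext y; simp
  have h5 : (if u ∈ Kf A F' G ob none then 1 else 0 : ℕ) +
      ∑ y : F, (if ob = some y ∧ quadraticChar F (u * y + v) = -1 then 1 else 0 : ℕ) =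
      EE ob u v := by
    cases ob with
    | none => simp [Kf, EE]
    | some b =>
      simp only [Kf, EE, Option.isSome_some, if_true, mem_filter, mem_univ, true_and,
        Option.some.injEq]
      congr 1
      rw [Finset.sum_eq_single b]
      · simp
      · intro y _ hy
        rw [if_neg]
        rintro ⟨h6, -⟩
        exact hy h6.symm
      · intro h6; exact absurd (mem_univ _) h6
  rw [h2, h3, h4, ← h5]
  ring

/-- the size of the set -/
lemma Hyp.size (h : Hyp A F' G ob) :
    (Pool.Agent.H598R3.mk (Kf A F' G ob) false).card =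
      F'.card * Fintype.card F + ((DD A ob).card + 2 * ob.toFinset.card) * ns F + G.card := by
  rw [Pool.Agent.H598R3.card_mk, Fintype.sum_option]
  have h0 : ∀ y : F, (Kf A F' G ob (some y)).card =
      (if y ∈ F' then Fintype.card F else 0) + (if ob = some y then ns F else 0) +
      (star (DD A ob) y).card + (if y ∈ G then 1 else 0) := by
    intro y
    simp only [Kf]
    by_cases h1 : y ∈ F'
    · have h2 : ob ≠ some y := fun h3 => h.notF h3 h1
      have h3 : y ∉ G := fun h4 => h.hGF y h4 h1
      simp [h1, h2, h3, h.starF h1]
    · simp only [h1, if_false, zero_add]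
      by_cases h2 : ob = some y
      · have h3 : y ∉ G := fun h4 => h.hGD y h4 (mem_DD.2 (Or.inr h2))
        rw [h.starb h2]
        simp [h2, h3, ns]
      · simp only [h2, if_false, zero_add]
        rw [card_union_of_disjoint]
        · by_cases h3 : y ∈ G <;> simp [h3]
        · rw [Finset.disjoint_left]
          intro x hx hx'
          split_ifs at hx' with h3
          · rw [mem_singleton] at hx'
            subst hx'
            exact zero_notMem_star _ _ hx
          · simp at hx'
  simp_rw [h0]
  rw [Finset.sum_add_distrib, Finset.sum_add_distrib, Finset.sum_add_distrib]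
  have h2 : ∑ y : F, (if y ∈ F' then Fintype.card F else 0 : ℕ) = F'.card * Fintype.card F := by
    rw [Finset.sum_ite_mem, univ_inter, sum_const, smul_eq_mul]
  have h4 : ∑ y : F, (if y ∈ G then 1 else 0 : ℕ) = G.card := by
    rw [Finset.sum_ite_mem, univ_inter, sum_const, smul_eq_mul, mul_one]
  have h3 : ∑ y : F, (star (DD A ob) y).card = (DD A ob).card * ns F := by
    have h5 : ∀ y : F, (star (DD A ob) y).card =
        ∑ m ∈ DD A ob, if quadraticChar F (y - m) = -1 then 1 else 0 := by
      intro y
      unfold star
      rw [card_image_of_injective, card_filter]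
      intro m m' hm
      simpa using hm
    simp_rw [h5]
    rw [Finset.sum_comm]
    have h6 : ∀ m ∈ DD A ob, ∑ y : F, (if quadraticChar F (y - m) = -1 then 1 else 0 : ℕ) =
        ns F := by
      intro m _
      unfold ns
      rw [card_filter]
      exact Fintype.sum_equiv (Equiv.subRight m) _ _ (fun y => by simp)
    rw [Finset.sum_congr rfl h6, sum_const, smul_eq_mul]
  have h5 : (Kf A F' G ob none).card + ∑ y : F, (if ob = some y then ns F else 0 : ℕ) =
      2 * ob.toFinset.card * ns F := by
    cases ob with
    | none => simp [Kf]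
    | some b =>
      have h6 : (Kf A F' G (some b) none).card = ns F := by
        simp only [Kf, Option.isSome_some, if_true]
        unfold ns
        apply Finset.card_nbij' (fun y => 1 - y) (fun y => 1 - y)
        · intro y hy
          simpa using hy
        · intro y hy
          simpa using hy
        · intro y _
          simp
        · intro y _
          simp
      have h7 : ∑ y : F, (if some b = some y then ns F else 0 : ℕ) = ns F := by
        simp only [Option.some.injEq]
        rw [Finset.sum_ite_eq]
        simp
      rw [h6, h7]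
      simp; ring
  rw [h2, h3, h4]
  simp only [Bool.false_eq_true, if_false, add_zero]
  have : ((DD A ob).card + 2 * ob.toFinset.card) * ns F =
      (DD A ob).card * ns F + 2 * ob.toFinset.card * ns F := by ring
  rw [this, ← h5]
  ring

end Pool.Agent.TH993.KA
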