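import Pool.Agent.TH993.KA.Exist

/-!
Windows of sizes.
-/

set_option autoImplicit false
set_option linter.unusedSectionVars false

namespace Pool.Agent.TH993.KA

open Finset Pool.Agent.H598R3

variable {F : Type} [Field F] [Fintype F] [DecidableEq F]

/-- the elements outside `A` whose number `pc` belongs to `P` -/
def RR (A : Finset F) (P : Finset ℕ) : Finset F := univ.filter (fun r => r ∉ A ∧ pc A r ∈ P)

lemma RR_card (hF : ringChar F ≠ 2) (A : Finset F) (hA : A.card = 60) (P : Finset ℕ) :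
    ((RR A P).card : ℝ) ≤ (∑ p ∈ P, (Nat.choose 60 p : ℝ)) *
      ((Fintype.card F : ℝ) / 2 ^ 60 + 360 * Real.sqrt (Fintype.card F)) := by
  classical
  set q : ℝ := (Fintype.card F : ℝ) with hq
  set η : Finset F → F → ℤ := fun T m =>
    quadraticChar F (-1) * (if m ∈ T then (-1 : ℤ) else 1) with hη
  have hη1 : ∀ T m, η T m = 1 ∨ η T m = -1 := by
    intro T m
    simp only [hη]
    rcases quadraticChar_dichotomy (neg_ne_zero.2 (one_ne_zero (α := F))) with h | h <;>
      rw [h] <;> split_ifs <;> simp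
  have hsub : RR A P ⊆ P.biUnion (fun p => (A.powersetCard p).biUnion (fun T =>
      univ.filter (fun r => ∀ s ∈ A, quadraticChar F (r - id s) = η T s))) := by
    intro r hr
    unfold RR at hr
    rw [mem_filter] at hr
    obtain ⟨-, hrA, hrP⟩ := hr
    rw [mem_biUnion]
    refine ⟨pc A r, hrP, ?_⟩
    rw [mem_biUnion]
    refine ⟨A.filter (fun m => quadraticChar F (m - r) = -1), ?_, ?_⟩
    · rw [mem_powersetCard]
      exact ⟨filter_subset _ _, rfl⟩
    · rw [mem_filter]
      refine ⟨mem_univ _, ?_⟩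
      intro s hs
      have hne : s - r ≠ 0 := by
        intro h
        rw [sub_eq_zero] at h
        exact hrA (h ▸ hs)
      have h1 : r - id s = (-1) * (s - r) := by simp
      rw [h1, map_mul]
      simp only [hη, mem_filter, hs, true_and]
      rcases quadraticChar_dichotomy hne with h | h <;> rw [h] <;> simp
  have h1 : (RR A P).card ≤ ∑ p ∈ P, ∑ T ∈ A.powersetCard p, cnt A id (η T) := by
    refine (card_le_card hsub).trans ?_
    refine card_biUnion_le.trans ?_
    apply Finset.sum_le_sum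
    intro p _
    refine card_biUnion_le.trans ?_
    apply Finset.sum_le_sum
    intro T _
    unfold cnt
    exact le_of_eq (by congr)
  have h2 : ∀ T, (cnt A id (η T) : ℝ) ≤ q / 2 ^ 60 + 360 * Real.sqrt q := by
    intro T
    have h3 := pattern hF A id (η T) (hη1 T) (fun s _ t _ h => h)
    rw [hA] at h3
    have h4 := (abs_le.1 h3).2
    have h5 : (0 : ℝ) < 2 ^ 60 := by positivity
    have h6 : (2 : ℝ) ^ 60 * cnt A id (η T) ≤ 2 ^ 60 * (q / 2 ^ 60 + 360 * Real.sqrt q) := by
      have h7 : (2 : ℝ) ^ 60 * (q / 2 ^ 60 + 360 * Real.sqrt q) =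
          q + 2 ^ 60 * (360 * Real.sqrt q) := by
        field_simp
      rw [h7]
      have h8 : (2 : ℝ) ^ 60 * (6 * (60 : ℕ) * Real.sqrt q) = 2 ^ 60 * (360 * Real.sqrt q) := by
        push_cast; ring
      rw [h8] at h4
      linarith
    exact le_of_mul_le_mul_left h6 h5
  have h3 : ((RR A P).card : ℝ) ≤ ∑ p ∈ P, ∑ T ∈ A.powersetCard p, (cnt A id (η T) : ℝ) := by
    exact_mod_cast h1
  refine h3.trans ?_
  rw [Finset.sum_mul]
  apply Finset.sum_le_sum
  intro p _
  refine (Finset.sum_le_sum (fun T _ => h2 T)).trans ?_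
  rw [sum_const, card_powersetCard, hA, nsmul_eq_mul]

theorem window (hF : ringChar F ≠ 2) (hq : (10 : ℝ) ^ 50 ≤ Fintype.card F) (A : Finset F)
    (hA : A.card = 60) (hEx : ∀ r ∈ A, pc A r ≤ 25 ∨ 34 ≤ pc A r) (s : Bool) (i : ℕ)
    (hi1 : 30 ≤ i) (hi2 : i ≤ 33) (PI PO : Finset ℕ) (hPI : ∀ p, Val 30 s p i → p ∈ PI)
    (hPO : ∀ p, Val 30 s p (i - 1) → p ∈ PO) (hd : ∀ p ∈ PI, p ∉ PO) (k t : ℕ)
    (hk : 70 ≤ k) (hk2 : (k : ℝ) ≤ 100 * Real.sqrt (Fintype.card F))
    (ht : 33 < t) (hIn : (RR A PI).card ≤ t)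
    (hOut : t + (RR A PO).card + 61 + k ≤ Fintype.card F) :
    Sz F k ((k - i) * Fintype.card F + (60 + 3 * s.toNat) * ns F + t) := by
  classical
  have hns := two_ns hF
  -- the vertex of the triangle
  obtain ⟨ob, hob1, hob2, hob3⟩ : ∃ ob : Option F, ob.isSome = s ∧
      (∀ b, ob = some b → b ∉ A ∧ ∀ m ∈ A, quadraticChar F (b - m) = 1) ∧
      ob.toFinset.card = s.toNat := by
    cases s with
    | false => exact ⟨none, rfl, by simp, by simp⟩
    | true =>
      obtain ⟨b, hb⟩ := exists_pat hF hq A (by omega) (id : F → F) (fun _ => 1)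
        (fun _ => Or.inl rfl) (fun s _ t _ h => h)
      refine ⟨some b, rfl, ?_, by simp⟩
      intro b' hb'
      rw [Option.some.injEq] at hb'
      subst hb'
      refine ⟨?_, hb⟩
      intro h
      have := hb b h
      simp at this
  have hsq0 : 0 ≤ Real.sqrt (Fintype.card F : ℝ) := Real.sqrt_nonneg _
  have hDc : (DD A ob).card ≤ 61 := by
    unfold DD
    refine (card_union_le _ _).trans ?_
    have : s.toNat ≤ 1 := Bool.toNat_le s
    omega
  -- the full lines
  have hcnt := cnt_large hF hq (DD A ob) hDc (id : F → F) (fun _ => 1)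
    (fun _ => Or.inl rfl) (fun s _ t _ h => h)
  have hcnt2 : k ≤ cnt (DD A ob) (id : F → F) (fun _ => 1) := by
    have : (k : ℝ) ≤ cnt (DD A ob) (id : F → F) (fun _ => 1) := by linarith
    exact_mod_cast this
  unfold cnt at hcnt2
  have hcnt3 : k - i ≤ ((univ : Finset F).filter
      (fun r => ∀ s ∈ DD A ob, quadraticChar F (r - id s) = (1 : ℤ))).card := by
    refine (Nat.sub_le k i).trans (hcnt2.trans (le_of_eq ?_))
    congr
  obtain ⟨F', hF'1, hF'2⟩ := Finset.exists_subset_card_eq (n := k - i)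
    (s := (univ : Finset F).filter
      (fun r => ∀ s ∈ DD A ob, quadraticChar F (r - id s) = (1 : ℤ))) hcnt3
  have hk4 : 4 * k ≤ Fintype.card F := by
    have hs25 : (10 : ℝ) ^ 25 ≤ Real.sqrt (Fintype.card F : ℝ) := by
      rw [show (10 : ℝ) ^ 25 = Real.sqrt ((10 : ℝ) ^ 50) by
        rw [show (10 : ℝ) ^ 50 = ((10 : ℝ) ^ 25) ^ 2 by norm_num, Real.sqrt_sq (by positivity)]]
      exact Real.sqrt_le_sqrt hq
    have hss : Real.sqrt (Fintype.card F : ℝ) * Real.sqrt (Fintype.card F : ℝ) =
        Fintype.card F := Real.mul_self_sqrt (by positivity)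
    have : (4 : ℝ) * k ≤ Fintype.card F := by
      have h400 : (400 : ℝ) ≤ Real.sqrt (Fintype.card F : ℝ) := le_trans (by norm_num) hs25
      nlinarith
    exact_mod_cast this
  -- the free points
  set In := ((RR A PI) \ DD A ob) \ F' with hInd
  set Top := ((univ \ DD A ob) \ F') \ RR A PO with hTop
  have hIT : In ⊆ Top := by
    intro r hr
    rw [hInd, mem_sdiff, mem_sdiff] at hr
    rw [hTop, mem_sdiff, mem_sdiff, mem_sdiff]
    refine ⟨⟨⟨mem_univ _, hr.1.2⟩, hr.2⟩, ?_⟩
    intro h
    have h1 := hr.1.1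
    unfold RR at h h1
    rw [mem_filter] at h h1
    exact hd _ h1.2.2 h.2.2
  have hInc : In.card ≤ t := by
    refine (card_le_card ?_).trans hIn
    intro r hr
    rw [hInd, mem_sdiff, mem_sdiff] at hr
    exact hr.1.1
  have hTopc : t ≤ Top.card := by
    have h1 := Finset.le_card_sdiff (DD A ob) (univ : Finset F)
    have h2 := Finset.le_card_sdiff F' (univ \ DD A ob)
    have h3 := Finset.le_card_sdiff (RR A PO) ((univ \ DD A ob) \ F')
    rw [card_univ] at h1
    rw [← hTop] at h3
    omega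
  obtain ⟨G, hG1, hG2, hG3⟩ := Finset.exists_subsuperset_card_eq hIT hInc hTopc
  have hyp : Hyp A F' G ob := by
    refine ⟨hob2, ?_, ?_, ?_⟩
    · intro y hy m hm
      have := hF'1 hy
      rw [mem_filter] at this
      exact this.2 m hm
    · intro y hy
      have := hG2 hy
      rw [hTop, mem_sdiff, mem_sdiff, mem_sdiff] at this
      exact this.1.1.2
    · intro y hy
      have := hG2 hy
      rw [hTop, mem_sdiff, mem_sdiff, mem_sdiff] at this
      exact this.1.2
  have hav := hyp.avoid hF 30 i (by omega) (by omega) (by omega)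
    (by
      intro r h1 h2 h3 h4
      rw [hob1] at h4
      apply h3
      apply hG1
      rw [hInd, mem_sdiff, mem_sdiff]
      refine ⟨⟨?_, h1⟩, h2⟩
      unfold RR
      rw [mem_filter]
      exact ⟨mem_univ _, fun h5 => h1 (mem_DD.2 (Or.inl h5)), hPI _ h4⟩)
    (by
      intro r h1 h4
      rw [hob1] at h4
      have := hG2 h1
      rw [hTop, mem_sdiff, mem_sdiff, mem_sdiff] at this
      apply this.2
      unfold RR
      rw [mem_filter]
      exact ⟨mem_univ _, fun h5 => this.1.1.2 (mem_DD.2 (Or.inl h5)), hPO _ h4⟩)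
    (by
      intro r h1 h4
      have := hEx r h1
      unfold Val' at h4
      omega)
    (by omega) (by omega) (by omega)
  refine ⟨Pool.Agent.H598R3.mk (Kf A F' G ob) false, ?_, ?_⟩
  · rw [hyp.size, card_DD hyp, hA, hob3, hF'2, hG3]
    ring
  · rw [hF'2, Nat.sub_add_cancel (by omega)] at hav
    exact hav

end Pool.Agent.TH993.KA
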